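import Mathlib

/-!
Binary trees, classes of sets of leaves that a colouring cannot distinguish, chains of subtrees and
the word model of a colouring of bounded width.
-/

namespace Pool.Agent.H801.CW

/-- Binary trees whose leaves are labelled by elements of `V`. -/
inductive VTree (V : Type) : Type
  | leaf : V → VTree V
  | node : VTree V → VTree V → VTree V

namespace VTree

variable {V : Type} [DecidableEq V]

/-- The set of the labels of the leaves of a tree. -/
def leaves : VTree V → Finset V
  | leaf x => {x}
  | node l r => l.leaves ∪ r.leaves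

/-- Different leaves have different labels. -/
def Proper : VTree V → Prop
  | leaf _ => True
  | node l r => Disjoint l.leaves r.leaves ∧ l.Proper ∧ r.Proper

/-- The leaf set of every subtree (the tree itself included) has the property `P`. -/
def Every (P : Finset V → Prop) : VTree V → Prop
  | leaf x => P {x}
  | node l r => P (l.leaves ∪ r.leaves) ∧ l.Every P ∧ r.Every P

theorem leaves_nonempty : ∀ T : VTree V, T.leaves.Nonempty
  | leaf x => by simp [leaves]
  | node l r => by
      simp only [leaves]
      exact (leaves_nonempty l).mono Finset.subset_union_left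

theorem Every.root {P : Finset V → Prop} : ∀ {T : VTree V}, T.Every P → P T.leaves
  | leaf _, h => h
  | node _ _, h => h.1

theorem Every.mono {P Q : Finset V → Prop} (hPQ : ∀ X, P X → Q X) :
    ∀ {T : VTree V}, T.Every P → T.Every Q
  | leaf _, h => hPQ _ h
  | node _ _, h => ⟨hPQ _ h.1, h.2.1.mono hPQ, h.2.2.mono hPQ⟩

/-- A chain of `m + 1` subtrees in a tree with at least `2 ^ m` leaves. -/
theorem chain (P : Finset V → Prop) : ∀ (m : ℕ) (T : VTree V), T.Proper → T.Every P →
    2 ^ m ≤ T.leaves.card →
    ∃ (L : ℕ → Finset V) (a : ℕ → V), L m = T.leaves ∧ (∀ i ≤ m, P (L i)) ∧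
      ∀ i < m, L i ⊆ L (i + 1) ∧ a i ∈ L (i + 1) ∧ a i ∉ L i := by
  intro m
  induction m with
  | zero =>
    intro T _ hE _
    obtain ⟨x, _⟩ := T.leaves_nonempty
    exact ⟨fun _ => T.leaves, fun _ => x, rfl, fun i _ => hE.root, fun i hi => absurd hi (by omega)⟩
  | succ m ih =>
    intro T hT hE hc
    have key : ∀ U U' : VTree V, U.Proper → U.Every P → Disjoint U.leaves U'.leaves →
        T.leaves = U.leaves ∪ U'.leaves → 2 ^ m ≤ U.leaves.card →
        ∃ (L : ℕ → Finset V) (a : ℕ → V), L (m + 1) = T.leaves ∧ (∀ i ≤ m + 1, P (L i)) ∧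
        ∀ i < m + 1, L i ⊆ L (i + 1) ∧ a i ∈ L (i + 1) ∧ a i ∉ L i := by
      intro U U' hU hUE hd hTU hcU
      obtain ⟨L, a, h1, h2, h3⟩ := ih U hU hUE hcU
      obtain ⟨y, hy⟩ := U'.leaves_nonempty
      refine ⟨fun i => if i ≤ m then L i else T.leaves, fun i => if i < m then a i else y,
        by simp, ?_, ?_⟩
      · intro i _
        by_cases him : i ≤ m
        · simpa [him] using h2 i him
        · simpa [him] using hE.root
      · intro i hi
        by_cases him : i < m
        · simpa [him, him.le, Nat.succ_le_of_lt him] using h3 i him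
        · have hi' : i = m := by omega
          subst hi'
          have e1 : ¬ (i + 1 ≤ i) := by omega
          simp only [le_refl, if_true, lt_irrefl, if_false, e1, h1, hTU]
          refine ⟨Finset.subset_union_left, Finset.mem_union_right _ hy, fun hyU => ?_⟩
          exact (Finset.disjoint_left.1 hd hyU) hy
    cases T with
    | leaf x =>
      exfalso
      simp only [leaves, Finset.card_singleton] at hc
      have : 2 ≤ 2 ^ (m + 1) := by
        rw [pow_succ]; have := Nat.one_le_two_pow (n := m); omega
      omega
    | node l r =>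
      have hcard : (node l r).leaves.card = l.leaves.card + r.leaves.card := by
        simp only [leaves]
        exact Finset.card_union_of_disjoint hT.1
      rw [hcard, pow_succ] at hc
      rcases le_or_gt (2 ^ m) l.leaves.card with h | h
      · exact key l r hT.2.1 hE.2.1 hT.1 rfl h
      · exact key r l hT.2.2 hE.2.2 hT.1.symm (by simp only [leaves, Finset.union_comm]) (by omega)

end VTree

/-- `Classes c q W X`, for sets of vertices `X ⊆ W`: the subsets of `X` fall into at most `q` classes
such that subsets `A`, `A'` in the same class cannot be distinguished by `c` from outside: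
`c (A ∪ B) = c (A' ∪ B)` for all subsets `B` of `W` which are disjoint from `X`. -/
def Classes {V κ : Type} [DecidableEq V] (c : Finset V → κ) (q : ℕ) (W X : Finset V) : Prop :=
  ∃ f : Finset V → Fin q, ∀ A A' : Finset V, A ⊆ X → A' ⊆ X → f A = f A' →
    ∀ B : Finset V, B ⊆ W → Disjoint B X → c (A ∪ B) = c (A' ∪ B)

/-- `UClasses r c q W X`: the same for a colouring of the `r`-subsets only (`c A` is used only if `A`
has `r` elements). For every `k` the `k`-subsets of `X` fall into at most `q` classes such that
`k`-subsets `A`, `A'` in the same class cannot be distinguished by `c` from outside: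
`c (A ∪ B) = c (A' ∪ B)` for all subsets `B` of `W` with `r - k` elements which are disjoint
from `X`. -/
def UClasses {V κ : Type} [DecidableEq V] (r : ℕ) (c : Finset V → κ) (q : ℕ) (W X : Finset V) :
    Prop :=
  ∃ f : Finset V → Fin q, ∀ A A' : Finset V, A ⊆ X → A' ⊆ X → A.card = A'.card → f A = f A' →
    ∀ B : Finset V, B ⊆ W → Disjoint B X → A.card + B.card = r → c (A ∪ B) = c (A' ∪ B)

/-- The state after reading the positions `0, …, i - 1`; the positions in `A` are marked. -/
def run {S : Type} (M M' : ℕ → S → S) (s₀ : S) (A : Finset ℕ) : ℕ → S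
  | 0 => s₀
  | i + 1 => if i ∈ A then M' i (run M M' s₀ A i) else M i (run M M' s₀ A i)

/-- The word model of a colouring, along a chain. -/
theorem word_model {V κ : Type} [DecidableEq V] (c : Finset V → κ) (q m : ℕ)
    (W : Finset V) (L : ℕ → Finset V) (a : ℕ → V) (hP : ∀ i ≤ m, Classes c q W (L i))
    (hW : ∀ i ≤ m, L i ⊆ W)
    (hL : ∀ i < m, L i ⊆ L (i + 1) ∧ a i ∈ L (i + 1) ∧ a i ∉ L i) :
    ∃ (M M' : ℕ → Fin q → Fin q) (s₀ : Fin q) (Φ : Fin q → κ), ∀ A : Finset ℕ,
      A ⊆ Finset.range m → c (A.image a) = Φ (run M M' s₀ A m) := by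
  classical
  have hP' : ∀ i : ℕ, ∃ f : Finset V → Fin q, i ≤ m → ∀ A A' : Finset V, A ⊆ L i → A' ⊆ L i →
      f A = f A' → ∀ B : Finset V, B ⊆ W → Disjoint B (L i) → c (A ∪ B) = c (A' ∪ B) := by
    intro i
    by_cases hi : i ≤ m
    · obtain ⟨f, hf⟩ := hP i hi
      exact ⟨f, fun _ => hf⟩
    · obtain ⟨f, _⟩ := hP 0 (Nat.zero_le m)
      exact ⟨f, fun h => absurd h hi⟩
  choose f hf using hP'
  let rep : ℕ → Fin q → Finset V := fun i s =>
    if h : ∃ A : Finset V, A ⊆ L i ∧ f i A = s then h.choose else ∅
  have rep_sub : ∀ i s, rep i s ⊆ L i := by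
    intro i s
    simp only [rep]
    split_ifs with h
    · exact h.choose_spec.1
    · exact Finset.empty_subset _
  have rep_f : ∀ i (A : Finset V), A ⊆ L i → f i (rep i (f i A)) = f i A := by
    intro i A hA
    have h : ∃ A' : Finset V, A' ⊆ L i ∧ f i A' = f i A := ⟨A, hA, rfl⟩
    simp only [rep, dif_pos h]
    exact h.choose_spec.2
  let M : ℕ → Fin q → Fin q := fun i s => f (i + 1) (rep i s)
  let M' : ℕ → Fin q → Fin q := fun i s => f (i + 1) (insert (a i) (rep i s))
  refine ⟨M, M', f 0 ∅, fun s => c (rep m s), ?_⟩
  intro A hA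
  have main : ∀ i ≤ m, ∀ B : Finset V, B ⊆ W → Disjoint B (L i) →
      c (rep i (run M M' (f 0 ∅) A i) ∪ B) = c ((A.filter (· < i)).image a ∪ B) := by
    intro i
    induction i with
    | zero =>
      intro hi B hBW hB
      have e : (A.filter (· < 0)).image a = ∅ := by simp
      rw [e]
      exact hf 0 hi _ _ (rep_sub 0 _) (Finset.empty_subset _)
        (rep_f 0 ∅ (Finset.empty_subset _)) B hBW hB
    | succ i ih =>
      intro hi B hBW hB
      have hi' : i < m := by omega
      obtain ⟨h1, h2, h3⟩ := hL i hi'
      have ihi := ih hi'.le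
      have hBi : Disjoint B (L i) := hB.mono_right h1
      by_cases hiA : i ∈ A
      · have e1 : run M M' (f 0 ∅) A (i + 1) = M' i (run M M' (f 0 ∅) A i) := by
          simp [run, hiA]
        have hsub : insert (a i) (rep i (run M M' (f 0 ∅) A i)) ⊆ L (i + 1) :=
          Finset.insert_subset h2 ((rep_sub i _).trans h1)
        rw [e1, hf (i + 1) hi _ _ (rep_sub (i + 1) _) hsub (rep_f (i + 1) _ hsub) B hBW hB]
        have e2 : insert (a i) (rep i (run M M' (f 0 ∅) A i)) ∪ B =
            rep i (run M M' (f 0 ∅) A i) ∪ insert (a i) B := by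
          ext x; simp only [Finset.mem_union, Finset.mem_insert]; tauto
        have e3 : A.filter (· < i + 1) = insert i (A.filter (· < i)) := by
          ext x
          simp only [Finset.mem_filter, Finset.mem_insert]
          constructor
          · rintro ⟨hx, hxi⟩
            rcases Nat.lt_succ_iff_lt_or_eq.1 hxi with h | h
            · exact Or.inr ⟨hx, h⟩
            · exact Or.inl h
          · rintro (rfl | ⟨hx, hxi⟩)
            · exact ⟨hiA, Nat.lt_succ_self _⟩
            · exact ⟨hx, by omega⟩
        rw [e2, ihi (insert (a i) B) (Finset.insert_subset (hW (i + 1) hi h2) hBW)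
          (Finset.disjoint_insert_left.2 ⟨h3, hBi⟩), e3,
          Finset.image_insert]
        congr 1
        ext x; simp only [Finset.mem_union, Finset.mem_insert]; tauto
      · have e1 : run M M' (f 0 ∅) A (i + 1) = M i (run M M' (f 0 ∅) A i) := by
          simp [run, hiA]
        have hsub : rep i (run M M' (f 0 ∅) A i) ⊆ L (i + 1) := (rep_sub i _).trans h1
        rw [e1, hf (i + 1) hi _ _ (rep_sub (i + 1) _) hsub (rep_f (i + 1) _ hsub) B hBW hB]
        have e3 : A.filter (· < i + 1) = A.filter (· < i) := by
          ext x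
          simp only [Finset.mem_filter]
          constructor
          · rintro ⟨hx, hxi⟩
            refine ⟨hx, ?_⟩
            rcases Nat.lt_succ_iff_lt_or_eq.1 hxi with h | h
            · exact h
            · exact absurd (h ▸ hx) hiA
          · rintro ⟨hx, hxi⟩
            exact ⟨hx, by omega⟩
        rw [ihi B hBW hBi, e3]
  have := main m le_rfl ∅ (Finset.empty_subset _) (Finset.disjoint_empty_left _)
  simp only [Finset.union_empty] at this
  have e : A.filter (· < m) = A := by
    apply Finset.filter_true_of_mem
    intro x hx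
    exact Finset.mem_range.1 (hA hx)
  rw [e] at this
  exact this.symm

end Pool.Agent.H801.CW
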