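import Pool.Agent.H801.CW.Lower

/-!
Homogeneous sets of the colouring `col` are small.
-/

namespace Pool.Agent.H801.CW

open Finset

theorem mono_bound (n h m : ℕ) (hn : 2 ≤ n) (hh : 1 ≤ h) (e : ℕ → ℕ)
    (he : ∀ i j, i < j → j < m → e i < e j) (hb : ∀ i < m, e i < n ^ h) (ε : Bool)
    (hc : ∀ i j k, i < j → j < k → k < m →
      decide (U n (e i) (e j) < U n (e j) (e k)) = ε) :
    m ≤ h * (n - 1) + 1 := by
  have hpos : ∀ i, i + 1 < m → 0 < U n (e i) (e (i + 1)) := fun i hi =>
    U_pos hn (he i (i + 1) (by omega) hi).ne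
  have hle : ∀ i, i + 1 < m → U n (e i) (e (i + 1)) ≤ h := fun i hi =>
    U_le_of_lt hn (hb i (by omega)) (hb (i + 1) hi)
  cases ε with
  | true =>
    have hinc : ∀ i, i + 1 < m → i + 1 ≤ U n (e i) (e (i + 1)) := by
      intro i
      induction i with
      | zero => intro hi; exact hpos 0 hi
      | succ i ih =>
        intro hi
        have h1 := ih (by omega)
        have h2 := of_decide_eq_true (hc i (i + 1) (i + 1 + 1) (by omega) (by omega) hi)
        omega
    rcases Nat.lt_or_ge m 2 with hm | hm
    · omega
    · obtain ⟨m', rfl⟩ : ∃ m', m = m' + 2 := ⟨m - 2, by omega⟩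
      have h1 := hinc m' (by omega)
      have h2 := hle m' (by omega)
      have h3 : h * 1 ≤ h * (n - 1) := Nat.mul_le_mul_left _ (by omega)
      omega
  | false =>
    have hge : ∀ i j k, i < j → j < k → k < m → U n (e j) (e k) ≤ U n (e i) (e j) := by
      intro i j k hij hjk hk
      have := of_decide_eq_false (hc i j k hij hjk hk)
      omega
    have hP : ∀ i j, i < j → j < m → U n (e i) (e j) = U n (e i) (e (i + 1)) := by
      intro i j hij hj
      rcases Nat.lt_or_ge (i + 1) j with h1 | h1
      · have h2 := hge i (i + 1) j (by omega) h1 hj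
        have h3 := U_max hn (he i (i + 1) (by omega) (by omega)).le (he (i + 1) j h1 hj).le
        rw [h3]
        exact max_eq_left h2
      · have : j = i + 1 := by omega
        rw [this]
    -- the injection
    let g : ℕ → ℕ × ℕ := fun i =>
      (U n (e i) (e (i + 1)), (e i / n ^ (U n (e i) (e (i + 1)) - 1)) % n)
    have hcard : (range (m - 1)).card ≤ ((Icc 1 h) ×ˢ (range (n - 1))).card := by
      apply card_le_card_of_injOn g
      · intro i hi
        have him : i + 1 < m := by have := mem_range.1 (mem_coe.1 hi); omega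
        rw [mem_coe, mem_product]
        refine ⟨mem_Icc.2 ⟨hpos i him, hle i him⟩, mem_range.2 ?_⟩
        simp only [g]
        set p := U n (e i) (e (i + 1)) with hp
        have hp0 : 0 < p := hpos i him
        obtain ⟨s, hs⟩ : ∃ s, p = s + 1 := ⟨p - 1, by omega⟩
        have h1 : e i / n ^ p = e (i + 1) / n ^ p := (U_le_iff hn).1 hp.ge
        have h2 : e i / n ^ s ≠ e (i + 1) / n ^ s := fun h' => by
          have := (U_le_iff hn).2 h'
          omega
        have h3 : e i / n ^ s ≤ e (i + 1) / n ^ s :=
          Nat.div_le_div_right (he i (i + 1) (by omega) him).le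
        rw [hs, pow_succ, ← Nat.div_div_eq_div_mul, ← Nat.div_div_eq_div_mul] at h1
        rw [hs, Nat.add_sub_cancel]
        have h4 := Nat.div_add_mod (e i / n ^ s) n
        have h5 := Nat.div_add_mod (e (i + 1) / n ^ s) n
        have h6 := Nat.mod_lt (e (i + 1) / n ^ s) (show 0 < n by omega)
        rw [h1] at h4
        omega
      · intro i hi j hj hij
        have hkey : ∀ i j, i < j → j + 1 < m → g i = g j → False := by
          intro i j hij hj hg
          simp only [g, Prod.mk.injEq] at hg
          obtain ⟨hg1, hg2⟩ := hg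
          rw [← hg1] at hg2
          set p := U n (e i) (e (i + 1)) with hp
          have hp0 : 0 < p := hpos i (by omega)
          obtain ⟨s, hs⟩ : ∃ s, p = s + 1 := ⟨p - 1, by omega⟩
          have hpj : U n (e i) (e j) = p := hP i j hij (by omega)
          have h1 : e i / n ^ p = e j / n ^ p := (U_le_iff hn).1 hpj.le
          have h2 : e i / n ^ s ≠ e j / n ^ s := fun h' => by
            have := (U_le_iff hn).2 h'
            omega
          rw [hs, pow_succ, ← Nat.div_div_eq_div_mul, ← Nat.div_div_eq_div_mul] at h1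
          rw [hs, Nat.add_sub_cancel] at hg2
          apply h2
          have h4 := Nat.div_add_mod (e i / n ^ s) n
          have h5 := Nat.div_add_mod (e j / n ^ s) n
          rw [← h4, ← h5, h1, hg2]
        have hi' := mem_range.1 (mem_coe.1 hi)
        have hj' := mem_range.1 (mem_coe.1 hj)
        rcases lt_trichotomy i j with h' | h' | h'
        · exact absurd hij (fun hh => hkey i j h' (by omega) hh)
        · exact h'
        · exact absurd hij.symm (fun hh => hkey j i h' (by omega) hh)
    rw [card_product, Nat.card_Icc, card_range, card_range] at hcard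
    have : h + 1 - 1 = h := by omega
    rw [this] at hcard
    omega

section hom

variable {n h M : ℕ} (x : ℕ → ℕ) (hx : ∀ i j, i < j → j < M → x i < x j)

include hx

theorem hx_le {i j : ℕ} (hij : i ≤ j) (hj : j < M) : x i ≤ x j := by
  rcases hij.lt_or_eq with h | h
  · exact (hx i j h hj).le
  · rw [h]

/-- A consecutive height inside an interval. -/
theorem le_U {i s j : ℕ} (his : i ≤ s) (hsj : s < j) (hj : j < M) :
    U 2 (x s) (x (s + 1)) ≤ U 2 (x i) (x j) := by
  have h1 := U_max (le_refl 2) (hx_le x hx his (by omega : s < M))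
    (hx_le x hx (show s ≤ j by omega) hj)
  have h2 := U_max (le_refl 2) (hx_le x hx (show s ≤ s + 1 by omega) (by omega : s + 1 < M))
    (hx_le x hx (show s + 1 ≤ j by omega) hj)
  rw [h1, h2]
  exact (le_max_left _ _).trans (le_max_right _ _)

theorem U_le {i j c : ℕ} (hij : i < j) (hj : j < M)
    (hc : ∀ s, i ≤ s → s < j → U 2 (x s) (x (s + 1)) ≤ c) : U 2 (x i) (x j) ≤ c := by
  induction j, hij using Nat.le_induction with
  | base => exact hc i le_rfl (by omega)
  | succ j hj' ih =>
    have h1 := U_max (le_refl 2) (hx_le x hx (show i ≤ j by omega) (by omega : j < M))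
      (hx_le x hx (show j ≤ j + 1 by omega) hj)
    rw [h1]
    exact max_le (ih (by omega) fun s h2 h3 => hc s h2 (by omega)) (hc j (by omega) (by omega))

variable (hn : 2 ≤ n) (hh : 1 ≤ h) (hb : ∀ i < M, x i < 2 ^ (n ^ h - 1)) (ε : Bool)
  (hc : ∀ i j k l, i < j → j < k → k < l → l < M → col4 n (x i) (x j) (x k) (x l) = ε)

include hb in
theorem height_lt (hn : 2 ≤ n) {i j : ℕ} (hij : i < j) (hj : j < M) : U 2 (x i) (x j) < n ^ h := by
  have h1 : U 2 (x i) (x j) ≤ n ^ h - 1 := U_le_of_lt (le_refl 2) (hb i (by omega)) (hb j hj)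
  have h2 : 0 < n ^ h := by positivity
  omega

include hn hh hb hc

theorem run_inc {a b : ℕ} (hab : a ≤ b) (hbM : b + 1 < M)
    (hinc : ∀ i, a ≤ i → i < b → U 2 (x i) (x (i + 1)) < U 2 (x (i + 1)) (x (i + 1 + 1))) :
    b - a + 1 ≤ h * (n - 1) + 1 := by
  -- heights increase
  have hmono : ∀ i j, a ≤ i → i < j → j ≤ b →
      U 2 (x i) (x (i + 1)) < U 2 (x j) (x (j + 1)) := by
    intro i j hai hij
    induction j, hij using Nat.le_induction with
    | base => intro hj; exact hinc i hai (by omega)
    | succ j hj' ih =>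
      intro hj
      exact (ih (by omega)).trans (hinc j (by omega) (by omega))
  have hmono' : ∀ i j, a ≤ i → i ≤ j → j ≤ b →
      U 2 (x i) (x (i + 1)) ≤ U 2 (x j) (x (j + 1)) := by
    intro i j hai hij hj
    rcases hij.lt_or_eq with h1 | h1
    · exact (hmono i j hai h1 hj).le
    · rw [h1]
  have hD : ∀ i j, a ≤ i → i < j → j ≤ b →
      U 2 (x (i + 1)) (x (j + 1)) = U 2 (x j) (x (j + 1)) := by
    intro i j hai hij hj
    apply le_antisymm
    · exact U_le x hx (by omega) (by omega) fun s h1 h2 => hmono' s j (by omega) (by omega) hj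
    · exact le_U x hx (by omega) (by omega) (by omega)
  apply mono_bound n h (b - a + 1) hn hh (fun i => U 2 (x (a + i)) (x (a + i + 1))) ?_ ?_ ε ?_
  · intro i j hij hj
    exact hmono (a + i) (a + j) (by omega) (by omega) (by omega)
  · intro i hi
    exact height_lt x hx hb hn (by omega) (by omega)
  · intro i j k hij hjk hk
    have h1 := hc (a + i) (a + i + 1) (a + j + 1) (a + k + 1) (by omega) (by omega) (by omega)
      (by omega)
    unfold col4 at h1
    rw [hD (a + i) (a + j) (by omega) (by omega) (by omega),
      hD (a + j) (a + k) (by omega) (by omega) (by omega)] at h1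
    have h2 := hmono (a + i) (a + j) (by omega) (by omega) (by omega)
    have h3 := hmono (a + j) (a + k) (by omega) (by omega) (by omega)
    simpa only [colD, if_pos h2, if_pos h3] using h1

theorem run_dec {a b : ℕ} (hab : a ≤ b) (hbM : b + 1 < M)
    (hdec : ∀ i, a ≤ i → i < b → U 2 (x (i + 1)) (x (i + 1 + 1)) < U 2 (x i) (x (i + 1))) :
    b - a + 1 ≤ h * (n - 1) + 1 := by
  have hmono : ∀ i j, a ≤ i → i < j → j ≤ b →
      U 2 (x j) (x (j + 1)) < U 2 (x i) (x (i + 1)) := by
    intro i j hai hij
    induction j, hij using Nat.le_induction with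
    | base => intro hj; exact hdec i hai (by omega)
    | succ j hj' ih =>
      intro hj
      exact (hdec j (by omega) (by omega)).trans (ih (by omega))
  have hmono' : ∀ i j, a ≤ i → i ≤ j → j ≤ b →
      U 2 (x j) (x (j + 1)) ≤ U 2 (x i) (x (i + 1)) := by
    intro i j hai hij hj
    rcases hij.lt_or_eq with h1 | h1
    · exact (hmono i j hai h1 hj).le
    · rw [h1]
  have hD : ∀ i j, a ≤ i → i < j → j ≤ b + 1 →
      U 2 (x i) (x j) = U 2 (x i) (x (i + 1)) := by
    intro i j hai hij hj
    apply le_antisymm
    · exact U_le x hx hij (by omega) fun s h1 h2 => hmono' i s hai h1 (by omega)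
    · exact le_U x hx le_rfl hij (by omega)
  apply mono_bound n h (b - a + 1) hn hh (fun i => U 2 (x (b - i)) (x (b - i + 1))) ?_ ?_ ε ?_
  · intro i j hij hj
    exact hmono (b - j) (b - i) (by omega) (by omega) (by omega)
  · intro i hi
    exact height_lt x hx hb hn (by omega) (by omega)
  · intro i j k hij hjk hk
    have h1 := hc (b - k) (b - j) (b - i) (b - i + 1) (by omega) (by omega) (by omega)
      (by omega)
    unfold col4 at h1
    rw [hD (b - k) (b - j) (by omega) (by omega) (by omega),
      hD (b - j) (b - i) (by omega) (by omega) (by omega)] at h1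
    have h2 := hmono (b - j) (b - i) (by omega) (by omega) (by omega)
    have h3 := hmono (b - k) (b - j) (by omega) (by omega) (by omega)
    simpa only [colD, if_neg (not_lt.2 h2.le), if_neg (not_lt.2 h3.le)] using h1

/-- Homogeneous sequences are short. -/
theorem hom_bound : M ≤ 2 * h * n := by
  rcases Nat.lt_or_ge M 2 with hM | hM
  · have : 1 * 2 ≤ h * n := Nat.mul_le_mul hh hn
    have e : 2 * h * n = 2 * (h * n) := by ring
    omega
  have hfinal : ∀ A B : ℕ, A ≤ h * (n - 1) + 1 → B ≤ h * (n - 1) + 1 → M = A + B →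
      M ≤ 2 * h * n := by
    intro A B hA hB hAB
    have e : h * (n - 1) + h = h * n := by
      obtain ⟨n', rfl⟩ : ∃ n', n = n' + 1 := ⟨n - 1, by omega⟩
      rw [Nat.add_sub_cancel]; ring
    have e2 : 2 * h * n = 2 * (h * n) := by ring
    omega
  -- consecutive heights are different
  have hne : ∀ i j k, i < j → j < k → k < M → U 2 (x i) (x j) ≠ U 2 (x j) (x k) :=
    fun i j k hij hjk hk => U_two_ne (hx i j hij (by omega)) (hx j k hjk hk)
  have hrne : (range (M - 1)).Nonempty := nonempty_range_iff.2 (by omega)
  cases ε with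
  | true =>
    obtain ⟨s, hs, hmax⟩ := exists_max_image (range (M - 1)) (fun i => U 2 (x i) (x (i + 1))) hrne
    have hsM := mem_range.1 hs
    have hmax' : ∀ i, i + 1 < M → U 2 (x i) (x (i + 1)) ≤ U 2 (x s) (x (s + 1)) := fun i hi =>
      hmax i (mem_range.2 (by omega))
    have h1 : s - 0 + 1 ≤ h * (n - 1) + 1 := by
      apply run_inc x hx hn hh hb true hc (Nat.zero_le s) (by omega)
      intro i _ his
      by_contra hcon
      have hlt : U 2 (x (i + 1)) (x (i + 1 + 1)) < U 2 (x i) (x (i + 1)) :=
        lt_of_le_of_ne (not_lt.1 hcon) (hne i (i + 1) (i + 1 + 1) (by omega) (by omega)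
          (by omega)).symm
      have hi1 : i + 1 ≠ s := by
        rintro rfl
        have := hmax' i (by omega)
        omega
      have hc' := hc i (i + 1) (i + 1 + 1) (s + 1) (by omega) (by omega) (by omega) (by omega)
      have hbig : U 2 (x s) (x (s + 1)) ≤ U 2 (x (i + 1 + 1)) (x (s + 1)) :=
        le_U x hx (by omega) (by omega) (by omega)
      have := hmax' i (by omega)
      simp only [col4, colD, if_neg (not_lt.2 hlt.le),
        if_pos (show U 2 (x (i + 1)) (x (i + 1 + 1)) < U 2 (x (i + 1 + 1)) (x (s + 1)) by omega),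
        reduceCtorEq] at hc'
    have h2 : (M - 2) - s + 1 ≤ h * (n - 1) + 1 := by
      apply run_dec x hx hn hh hb true hc (by omega) (by omega)
      intro i hsi hiM
      by_contra hcon
      have hlt : U 2 (x i) (x (i + 1)) < U 2 (x (i + 1)) (x (i + 1 + 1)) :=
        lt_of_le_of_ne (not_lt.1 hcon) (hne i (i + 1) (i + 1 + 1) (by omega) (by omega)
          (by omega))
      have hi1 : i ≠ s := by
        rintro rfl
        have := hmax' (i + 1) (by omega)
        omega
      have hc' := hc s i (i + 1) (i + 1 + 1) (by omega) (by omega) (by omega) (by omega)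
      have hbig : U 2 (x s) (x (s + 1)) ≤ U 2 (x s) (x i) :=
        le_U x hx le_rfl (by omega) (by omega)
      have := hmax' (i + 1) (by omega)
      simp only [col4, colD, if_neg (show ¬ U 2 (x s) (x i) < U 2 (x i) (x (i + 1)) by omega),
        if_pos hlt, reduceCtorEq] at hc'
    exact hfinal _ _ h1 h2 (by omega)
  | false =>
    obtain ⟨s, hs, hmin⟩ := exists_min_image (range (M - 1)) (fun i => U 2 (x i) (x (i + 1))) hrne
    have hsM := mem_range.1 hs
    have hmin' : ∀ i, i + 1 < M → U 2 (x s) (x (s + 1)) ≤ U 2 (x i) (x (i + 1)) := fun i hi =>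
      hmin i (mem_range.2 (by omega))
    have h1 : s - 0 + 1 ≤ h * (n - 1) + 1 := by
      apply run_dec x hx hn hh hb false hc (Nat.zero_le s) (by omega)
      intro i _ his
      by_contra hcon
      have hlt : U 2 (x i) (x (i + 1)) < U 2 (x (i + 1)) (x (i + 1 + 1)) :=
        lt_of_le_of_ne (not_lt.1 hcon) (hne i (i + 1) (i + 1 + 1) (by omega) (by omega)
          (by omega))
      have hi1 : i + 1 ≠ s := by
        rintro rfl
        have := hmin' i (by omega)
        omega
      have hc' := hc i (i + 1) s (s + 1) (by omega) (by omega) (by omega) (by omega)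
      have hbig : U 2 (x (i + 1)) (x (i + 1 + 1)) ≤ U 2 (x (i + 1)) (x s) :=
        le_U x hx le_rfl (by omega) (by omega)
      have := hmin' i (by omega)
      simp only [col4, colD,
        if_pos (show U 2 (x i) (x (i + 1)) < U 2 (x (i + 1)) (x s) by omega),
        if_neg (show ¬ U 2 (x (i + 1)) (x s) < U 2 (x s) (x (s + 1)) by omega),
        reduceCtorEq] at hc'
    have h2 : (M - 2) - s + 1 ≤ h * (n - 1) + 1 := by
      apply run_inc x hx hn hh hb false hc (by omega) (by omega)
      intro i hsi hiM
      by_contra hcon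
      have hlt : U 2 (x (i + 1)) (x (i + 1 + 1)) < U 2 (x i) (x (i + 1)) :=
        lt_of_le_of_ne (not_lt.1 hcon) (hne i (i + 1) (i + 1 + 1) (by omega) (by omega)
          (by omega)).symm
      have hi1 : i ≠ s := by
        rintro rfl
        have := hmin' (i + 1) (by omega)
        omega
      have hc' := hc s (s + 1) (i + 1) (i + 1 + 1) (by omega) (by omega) (by omega) (by omega)
      have hbig : U 2 (x i) (x (i + 1)) ≤ U 2 (x (s + 1)) (x (i + 1)) :=
        le_U x hx (by omega) (by omega) (by omega)
      have := hmin' (i + 1) (by omega)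
      simp only [col4, colD,
        if_pos (show U 2 (x s) (x (s + 1)) < U 2 (x (s + 1)) (x (i + 1)) by omega),
        if_neg (show ¬ U 2 (x (s + 1)) (x (i + 1)) < U 2 (x (i + 1)) (x (i + 1 + 1)) by omega),
        reduceCtorEq] at hc'
    exact hfinal _ _ h1 h2 (by omega)

end hom

/-- No large homogeneous sets, in any uniformity at least four. -/
theorem no_hom (n h r : ℕ) (hn : 2 ≤ n) (hh : 1 ≤ h) (hr : 4 ≤ r) :
    ¬ ∃ H ⊆ range (2 ^ (n ^ h - 1)), H.card = 2 * h * n + r ∧
      ∀ A A' : Finset ℕ, A ⊆ H → A' ⊆ H → A.card = r → A'.card = r → col n A = col n A' := by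
  rintro ⟨H, hH, hcard, hhom⟩
  set K := 2 * h * n + r with hK
  let x : ℕ → ℕ := fun i => if hi : i < K then H.orderEmbOfFin hcard ⟨i, hi⟩ else 0
  have hx : ∀ i j, i < j → j < K → x i < x j := by
    intro i j hij hj
    simp only [x, dif_pos hj, dif_pos (hij.trans hj)]
    exact (H.orderEmbOfFin hcard).strictMono hij
  have hxH : ∀ i < K, x i ∈ H := by
    intro i hi
    simp only [x, dif_pos hi]
    exact H.orderEmbOfFin_mem hcard _
  set M := 2 * h * n + 4 with hM
  have hMK : M ≤ K := by omega
  set top := (Ico M K).image x with htop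
  have hinj : Set.InjOn x (Ico M K : Set ℕ) := by
    intro i hi j hj hij
    have hi' := mem_Ico.1 (mem_coe.1 hi)
    have hj' := mem_Ico.1 (mem_coe.1 hj)
    rcases lt_trichotomy i j with h' | h' | h'
    · exact absurd hij (hx i j h' hj'.2).ne
    · exact h'
    · exact absurd hij.symm (hx j i h' hi'.2).ne
  have htopcard : top.card = r - 4 := by
    rw [htop, card_image_of_injOn hinj, Nat.card_Ico]
    omega
  have htoplt : ∀ i < M, ∀ b ∈ top, x i < b := by
    intro i hi b hb
    obtain ⟨j, hj, rfl⟩ := mem_image.1 hb
    have := mem_Ico.1 hj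
    exact hx i j (by omega) this.2
  have hset : ∀ i j k l, i < j → j < k → k < l → l < M →
      (insert (x i) (insert (x j) (insert (x k) (insert (x l) top)))) ⊆ H ∧
      (insert (x i) (insert (x j) (insert (x k) (insert (x l) top)))).card = r ∧
      col n (insert (x i) (insert (x j) (insert (x k) (insert (x l) top)))) =
        col4 n (x i) (x j) (x k) (x l) := by
    intro i j k l hij hjk hkl hl
    have xij := hx i j hij (by omega)
    have xjk := hx j k hjk (by omega)
    have xkl := hx k l hkl (by omega)
    have ti := htoplt i (by omega)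
    have tj := htoplt j (by omega)
    have tk := htoplt k (by omega)
    have tl := htoplt l (by omega)
    have nl : x l ∉ top := fun h' => absurd (tl _ h') (lt_irrefl _)
    have nk : x k ∉ insert (x l) top := by
      simp only [mem_insert, not_or]
      exact ⟨xkl.ne, fun h' => absurd (tk _ h') (lt_irrefl _)⟩
    have nj : x j ∉ insert (x k) (insert (x l) top) := by
      simp only [mem_insert, not_or]
      exact ⟨xjk.ne, (xjk.trans xkl).ne, fun h' => absurd (tj _ h') (lt_irrefl _)⟩
    have ni : x i ∉ insert (x j) (insert (x k) (insert (x l) top)) := by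
      simp only [mem_insert, not_or]
      exact ⟨xij.ne, (xij.trans xjk).ne, (xij.trans (xjk.trans xkl)).ne,
        fun h' => absurd (ti _ h') (lt_irrefl _)⟩
    refine ⟨?_, ?_, ?_⟩
    · intro y hy
      simp only [mem_insert] at hy
      rcases hy with rfl | rfl | rfl | rfl | hy
      · exact hxH i (by omega)
      · exact hxH j (by omega)
      · exact hxH k (by omega)
      · exact hxH l (by omega)
      · obtain ⟨s, hs, rfl⟩ := mem_image.1 hy
        exact hxH s (mem_Ico.1 hs).2
    · rw [card_insert_of_notMem ni, card_insert_of_notMem nj, card_insert_of_notMem nk,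
        card_insert_of_notMem nl, htopcard]
      omega
    · unfold col
      rw [sort_insert _ ?_ ni, sort_insert _ ?_ nj, sort_insert _ ?_ nk, sort_insert _ ?_ nl]
      · rfl
      · intro b hb; exact (tl b hb).le
      · intro b hb
        simp only [mem_insert] at hb
        rcases hb with rfl | hb
        · exact xkl.le
        · exact (tk b hb).le
      · intro b hb
        simp only [mem_insert] at hb
        rcases hb with rfl | rfl | hb
        · exact xjk.le
        · exact (xjk.trans xkl).le
        · exact (tj b hb).le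
      · intro b hb
        simp only [mem_insert] at hb
        rcases hb with rfl | rfl | rfl | hb
        · exact xij.le
        · exact (xij.trans xjk).le
        · exact (xij.trans (xjk.trans xkl)).le
        · exact (ti b hb).le
  have h0 := hset 0 1 2 3 (by omega) (by omega) (by omega) (by omega)
  have hc : ∀ i j k l, i < j → j < k → k < l → l < M →
      col4 n (x i) (x j) (x k) (x l) = col4 n (x 0) (x 1) (x 2) (x 3) := by
    intro i j k l hij hjk hkl hl
    obtain ⟨h1, h2, h3⟩ := hset i j k l hij hjk hkl hl
    rw [← h3, ← h0.2.2]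
    exact hhom _ _ h1 h0.1 h2 h0.2.1
  have := hom_bound x (fun i j hij hj => hx i j hij (by omega)) hn hh
    (fun i hi => mem_range.1 (hH (hxH i (by omega)))) _ hc
  omega

end Pool.Agent.H801.CW
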