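import Pool.Agent.H801.CW.Basic

/-!
Two-colourings of bounded width, of exponential size, without large homogeneous sets.
-/

namespace Pool.Agent.H801.CW

open Finset

/-- The first level at which `x` and `y` agree: the least `j` with `x / b ^ j = y / b ^ j`. -/
noncomputable def U (b x y : ℕ) : ℕ := sInf {j | x / b ^ j = y / b ^ j}

theorem div_pow_mono {b x y i j : ℕ} (hij : i ≤ j) (h : x / b ^ i = y / b ^ i) :
    x / b ^ j = y / b ^ j := by
  obtain ⟨k, rfl⟩ := Nat.exists_eq_add_of_le hij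
  rw [pow_add, ← Nat.div_div_eq_div_mul, ← Nat.div_div_eq_div_mul, h]

theorem U_nonempty {b : ℕ} (hb : 2 ≤ b) (x y : ℕ) : {j | x / b ^ j = y / b ^ j}.Nonempty := by
  refine ⟨x + y, ?_⟩
  have h1 : x + y < b ^ (x + y) :=
    (Nat.lt_two_pow_self).trans_le (Nat.pow_le_pow_left hb _)
  simp only [Set.mem_ofPred_eq]
  rw [Nat.div_eq_of_lt (by omega), Nat.div_eq_of_lt (by omega)]

theorem U_le_iff {b x y j : ℕ} (hb : 2 ≤ b) : U b x y ≤ j ↔ x / b ^ j = y / b ^ j := by
  constructor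
  · intro h
    exact div_pow_mono h (Nat.sInf_mem (U_nonempty hb x y))
  · intro h
    exact Nat.sInf_le h

theorem U_comm (b x y : ℕ) : U b x y = U b y x := by
  unfold U
  congr 1
  ext j
  exact eq_comm

theorem U_max {b x y z : ℕ} (hb : 2 ≤ b) (hxy : x ≤ y) (hyz : y ≤ z) :
    U b x z = max (U b x y) (U b y z) := by
  apply eq_of_forall_ge_iff
  intro j
  rw [max_le_iff, U_le_iff hb, U_le_iff hb, U_le_iff hb]
  have h1 : x / b ^ j ≤ y / b ^ j := Nat.div_le_div_right hxy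
  have h2 : y / b ^ j ≤ z / b ^ j := Nat.div_le_div_right hyz
  constructor
  · intro h; omega
  · rintro ⟨h3, h4⟩; omega

theorem U_pos {b x y : ℕ} (hb : 2 ≤ b) (hxy : x ≠ y) : 0 < U b x y := by
  by_contra h
  have : U b x y ≤ 0 := by omega
  rw [U_le_iff hb] at this
  simp at this
  exact hxy this

theorem U_le_of_lt {b x y h : ℕ} (hb : 2 ≤ b) (hx : x < b ^ h) (hy : y < b ^ h) : U b x y ≤ h := by
  rw [U_le_iff hb, Nat.div_eq_of_lt hx, Nat.div_eq_of_lt hy]

theorem U_two_ne {x y z : ℕ} (hxy : x < y) (hyz : y < z) : U 2 x y ≠ U 2 y z := by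
  intro h
  have hp := U_pos (le_refl 2) hxy.ne
  obtain ⟨s, hs⟩ : ∃ s, U 2 x y = s + 1 := ⟨U 2 x y - 1, by omega⟩
  have h1 : x / 2 ^ (s + 1) = y / 2 ^ (s + 1) := (U_le_iff (le_refl 2)).1 hs.le
  have h2 : y / 2 ^ (s + 1) = z / 2 ^ (s + 1) := (U_le_iff (le_refl 2)).1 (by omega)
  have h3 : x / 2 ^ s ≠ y / 2 ^ s := fun h' => by
    have := (U_le_iff (le_refl 2)).2 h'
    omega
  have h4 : y / 2 ^ s ≠ z / 2 ^ s := fun h' => by
    have := (U_le_iff (le_refl 2)).2 h'
    omega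
  have h5 : x / 2 ^ s ≤ y / 2 ^ s := Nat.div_le_div_right hxy.le
  have h6 : y / 2 ^ s ≤ z / 2 ^ s := Nat.div_le_div_right hyz.le
  rw [pow_succ, ← Nat.div_div_eq_div_mul, ← Nat.div_div_eq_div_mul] at h1
  rw [pow_succ, ← Nat.div_div_eq_div_mul, ← Nat.div_div_eq_div_mul] at h2
  omega

theorem U_out {t k a a' b : ℕ} (ha : a / 2 ^ t = k) (ha' : a' / 2 ^ t = k) (hb : b / 2 ^ t ≠ k) :
    U 2 b a = U 2 b a' ∧ t < U 2 b a := by
  have h1 : ∀ x, x / 2 ^ t = k → t < U 2 b x := by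
    intro x hx
    by_contra h
    have := (U_le_iff (le_refl 2)).1 (not_lt.1 h)
    exact hb (this.trans hx)
  refine ⟨?_, h1 a ha⟩
  apply eq_of_forall_ge_iff
  intro j
  rcases lt_or_ge t j with hj | hj
  · rw [U_le_iff (le_refl 2), U_le_iff (le_refl 2), div_pow_mono hj.le (ha.trans ha'.symm)]
  · have := h1 a ha
    have := h1 a' ha'
    constructor <;> intro h <;> omega

theorem U_in {t k a a' : ℕ} (ha : a / 2 ^ t = k) (ha' : a' / 2 ^ t = k) : U 2 a a' ≤ t :=
  (U_le_iff (le_refl 2)).2 (ha.trans ha'.symm)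

/-- The colour of a 4-set, from the heights of the three consecutive pairs. -/
noncomputable def colD (n d₁ d₂ d₃ : ℕ) : Bool :=
  if d₁ < d₂ then (if d₂ < d₃ then decide (U n d₁ d₂ < U n d₂ d₃) else true)
  else (if d₂ < d₃ then false else decide (U n d₃ d₂ < U n d₂ d₁))

noncomputable def col4 (n x₁ x₂ x₃ x₄ : ℕ) : Bool :=
  colD n (U 2 x₁ x₂) (U 2 x₂ x₃) (U 2 x₃ x₄)

noncomputable def colL (n : ℕ) : List ℕ → Bool
  | x₁ :: x₂ :: x₃ :: x₄ :: _ => col4 n x₁ x₂ x₃ x₄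
  | _ => false

/-- The colouring: it depends only on the four smallest elements. -/
noncomputable def col (n : ℕ) (A : Finset ℕ) : Bool := colL n A.sort

noncomputable def tri (n t d₁ d₂ : ℕ) : Bool × ℕ × ℕ :=
  if d₁ < d₂ then (true, U n d₁ d₂, U n d₂ t) else (false, U n d₂ d₁, U n d₁ t)

noncomputable def cls (n t : ℕ) : List ℕ → (Bool × ℕ × ℕ) × Bool
  | a₁ :: a₂ :: a₃ :: l => (tri n t (U 2 a₁ a₂) (U 2 a₂ a₃), colL n (a₁ :: a₂ :: a₃ :: l))
  | [a₁, a₂] => ((true, 0, U n (U 2 a₁ a₂) t), false)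
  | _ => ((true, 0, 0), false)

section congr

variable {n t : ℕ} (hn : 2 ≤ n)

include hn

theorem colA1 {d d' u v : ℕ} (hd : d ≤ t) (hd' : d' ≤ t) (hu : t < u)
    (h : U n d t = U n d' t) : colD n d u v = colD n d' u v := by
  have e : U n d u = U n d' u := by
    rw [U_max hn hd hu.le, U_max hn hd' hu.le, h]
  simp only [colD, if_pos (hd.trans_lt hu), if_pos (hd'.trans_lt hu), e]

theorem colA3 {d d' u v : ℕ} (hd : d ≤ t) (hd' : d' ≤ t) (hu : t < u)
    (h : U n d t = U n d' t) : colD n v u d = colD n v u d' := by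
  have e : U n d u = U n d' u := by
    rw [U_max hn hd hu.le, U_max hn hd' hu.le, h]
  simp only [colD, if_neg (show ¬ u < d by omega), if_neg (show ¬ u < d' by omega), e]

omit hn in
theorem colA2 {d d' u v : ℕ} (hd : d ≤ t) (hd' : d' ≤ t) (hu : t < u) (hv : t < v) :
    colD n u d v = colD n u d' v := by
  simp only [colD, if_neg (show ¬ u < d by omega), if_neg (show ¬ u < d' by omega),
    if_pos (hd.trans_lt hv), if_pos (hd'.trans_lt hv)]

theorem tri_P {d₁ d₂ d₁' d₂' : ℕ} (h₂ : d₂ ≤ t)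
    (h₂' : d₂' ≤ t) (h : tri n t d₁ d₂ = tri n t d₁' d₂') :
    U n d₁ t = U n d₁' t := by
  unfold tri at h
  by_cases h3 : d₁ < d₂ <;> by_cases h4 : d₁' < d₂' <;>
    simp only [h3, h4, if_true, if_false, Prod.mk.injEq, reduceCtorEq, false_and, true_and] at h
  · rw [U_max hn h3.le h₂, U_max hn h4.le h₂', h.1, h.2]
  · exact h.2

theorem colB1 {d₁ d₂ d₁' d₂' u : ℕ} (h₁ : d₁ ≤ t) (h₂ : d₂ ≤ t) (h₁' : d₁' ≤ t) (h₂' : d₂' ≤ t)
    (hu : t < u) (h : tri n t d₁ d₂ = tri n t d₁' d₂') :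
    colD n d₁ d₂ u = colD n d₁' d₂' u := by
  unfold tri at h
  by_cases h3 : d₁ < d₂ <;> by_cases h4 : d₁' < d₂' <;>
    simp only [h3, h4, if_true, if_false, Prod.mk.injEq, reduceCtorEq, false_and, true_and] at h
  · simp only [colD, if_pos h3, if_pos h4, if_pos (h₂.trans_lt hu), if_pos (h₂'.trans_lt hu)]
    rw [U_max hn h₂ hu.le, U_max hn h₂' hu.le, h.1, h.2]
  · simp only [colD, if_neg h3, if_neg h4, if_pos (h₂.trans_lt hu), if_pos (h₂'.trans_lt hu)]

theorem colB2 {d₁ d₂ d₁' d₂' u : ℕ} (h₁ : d₁ ≤ t) (h₂ : d₂ ≤ t) (h₁' : d₁' ≤ t) (h₂' : d₂' ≤ t)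
    (hu : t < u) (h : tri n t d₁ d₂ = tri n t d₁' d₂') :
    colD n u d₁ d₂ = colD n u d₁' d₂' := by
  unfold tri at h
  by_cases h3 : d₁ < d₂ <;> by_cases h4 : d₁' < d₂' <;>
    simp only [h3, h4, if_true, if_false, Prod.mk.injEq, reduceCtorEq, false_and, true_and] at h
  · simp only [colD, if_pos h3, if_pos h4, if_neg (show ¬ u < d₁ by omega),
      if_neg (show ¬ u < d₁' by omega)]
  · simp only [colD, if_neg h3, if_neg h4, if_neg (show ¬ u < d₁ by omega),
      if_neg (show ¬ u < d₁' by omega)]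
    rw [U_max hn h₁ hu.le, U_max hn h₁' hu.le, h.1, h.2]

theorem colL_congr {k : ℕ} (l₁ la la' l₃ : List ℕ) (hlen : la.length = la'.length)
    (ha : ∀ a ∈ la, a / 2 ^ t = k) (ha' : ∀ a ∈ la', a / 2 ^ t = k)
    (h₁ : ∀ b ∈ l₁, b / 2 ^ t ≠ k) (h₃ : ∀ b ∈ l₃, b / 2 ^ t ≠ k)
    (hc : cls n t la = cls n t la') :
    colL n (l₁ ++ (la ++ l₃)) = colL n (l₁ ++ (la' ++ l₃)) := by
  -- comparison of heights
  have out : ∀ b a a' : ℕ, b / 2 ^ t ≠ k → a / 2 ^ t = k → a' / 2 ^ t = k →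
      U 2 b a = U 2 b a' := fun b a a' hb ha ha' => (U_out ha ha' hb).1
  have out' : ∀ b a a' : ℕ, b / 2 ^ t ≠ k → a / 2 ^ t = k → a' / 2 ^ t = k →
      U 2 a b = U 2 a' b := fun b a a' hb ha ha' => by
    rw [U_comm 2 a b, U_comm 2 a' b]; exact (U_out ha ha' hb).1
  have big : ∀ b a : ℕ, b / 2 ^ t ≠ k → a / 2 ^ t = k → t < U 2 b a :=
    fun b a hb ha => (U_out ha ha hb).2
  have big' : ∀ b a : ℕ, b / 2 ^ t ≠ k → a / 2 ^ t = k → t < U 2 a b := fun b a hb ha => by
    rw [U_comm 2 a b]; exact (U_out ha ha hb).2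
  rcases la with _ | ⟨a₁, _ | ⟨a₂, _ | ⟨a₃, la⟩⟩⟩
  · rcases la' with _ | ⟨a₁', la'⟩
    · rfl
    · simp at hlen
  · rcases la' with _ | ⟨a₁', _ | ⟨a₂', la'⟩⟩
    · simp at hlen
    · simp only [List.mem_singleton, forall_eq] at ha ha'
      rcases l₁ with _ | ⟨b₁, _ | ⟨b₂, _ | ⟨b₃, _ | ⟨b₄, l₁⟩⟩⟩⟩
      · rcases l₃ with _ | ⟨z₁, _ | ⟨z₂, _ | ⟨z₃, l₃⟩⟩⟩ <;>
          simp only [List.nil_append, List.cons_append, colL, col4]
        rw [out' z₁ a₁ a₁' (h₃ _ (by simp)) ha ha']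
      · rcases l₃ with _ | ⟨z₁, _ | ⟨z₂, l₃⟩⟩ <;>
          simp only [List.nil_append, List.cons_append, colL, col4]
        rw [out' z₁ a₁ a₁' (h₃ _ (by simp)) ha ha', out b₁ a₁ a₁' (h₁ _ (by simp)) ha ha']
      · rcases l₃ with _ | ⟨z₁, l₃⟩ <;>
          simp only [List.nil_append, List.cons_append, colL, col4]
        rw [out' z₁ a₁ a₁' (h₃ _ (by simp)) ha ha', out b₂ a₁ a₁' (h₁ _ (by simp)) ha ha']
      · simp only [List.nil_append, List.cons_append, colL, col4]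
        rw [out b₃ a₁ a₁' (h₁ _ (by simp)) ha ha']
      · simp only [List.nil_append, List.cons_append, colL, col4]
    · simp at hlen
  · rcases la' with _ | ⟨a₁', _ | ⟨a₂', _ | ⟨a₃', la'⟩⟩⟩
    · simp at hlen
    · simp at hlen
    · simp only [List.mem_cons, List.not_mem_nil, or_false, forall_eq_or_imp, forall_eq] at ha ha'
      obtain ⟨e1, e2⟩ := ha
      obtain ⟨e1', e2'⟩ := ha'
      simp only [cls, Prod.mk.injEq, true_and, and_true] at hc
      have hd := U_in e1 e2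
      have hd' := U_in e1' e2'
      rcases l₁ with _ | ⟨b₁, _ | ⟨b₂, _ | ⟨b₃, _ | ⟨b₄, l₁⟩⟩⟩⟩
      · rcases l₃ with _ | ⟨z₁, _ | ⟨z₂, l₃⟩⟩ <;>
          simp only [List.nil_append, List.cons_append, colL, col4]
        rw [out' z₁ a₂ a₂' (h₃ _ (by simp)) e2 e2']
        exact colA1 hn hd hd' (big' z₁ a₂' (h₃ _ (by simp)) e2') hc
      · rcases l₃ with _ | ⟨z₁, l₃⟩ <;>
          simp only [List.nil_append, List.cons_append, colL, col4]
        rw [out' z₁ a₂ a₂' (h₃ _ (by simp)) e2 e2', out b₁ a₁ a₁' (h₁ _ (by simp)) e1 e1']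
        exact colA2 hd hd' (big b₁ a₁' (h₁ _ (by simp)) e1') (big' z₁ a₂' (h₃ _ (by simp)) e2')
      · simp only [List.nil_append, List.cons_append, colL, col4]
        rw [out b₂ a₁ a₁' (h₁ _ (by simp)) e1 e1']
        exact colA3 hn hd hd' (big b₂ a₁' (h₁ _ (by simp)) e1') hc
      · simp only [List.nil_append, List.cons_append, colL, col4]
        rw [out b₃ a₁ a₁' (h₁ _ (by simp)) e1 e1']
      · simp only [List.nil_append, List.cons_append, colL, col4]
    · simp at hlen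
  · rcases la' with _ | ⟨a₁', _ | ⟨a₂', _ | ⟨a₃', la'⟩⟩⟩
    · simp at hlen
    · simp at hlen
    · simp at hlen
    · have e1 := ha a₁ (by simp)
      have e2 := ha a₂ (by simp)
      have e3 := ha a₃ (by simp)
      have e1' := ha' a₁' (by simp)
      have e2' := ha' a₂' (by simp)
      have e3' := ha' a₃' (by simp)
      simp only [cls, Prod.mk.injEq] at hc
      obtain ⟨hc1, hc2⟩ := hc
      have hd1 := U_in e1 e2
      have hd2 := U_in e2 e3
      have hd1' := U_in e1' e2'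
      have hd2' := U_in e2' e3'
      rcases l₁ with _ | ⟨b₁, _ | ⟨b₂, _ | ⟨b₃, _ | ⟨b₄, l₁⟩⟩⟩⟩
      · rcases la with _ | ⟨a₄, la⟩
        · rcases la' with _ | ⟨a₄', la'⟩
          · rcases l₃ with _ | ⟨z₁, l₃⟩ <;>
              simp only [List.nil_append, List.cons_append, colL, col4]
            rw [out' z₁ a₃ a₃' (h₃ _ (by simp)) e3 e3']
            exact colB1 hn hd1 hd2 hd1' hd2' (big' z₁ a₃' (h₃ _ (by simp)) e3') hc1
          · simp at hlen
        · rcases la' with _ | ⟨a₄', la'⟩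
          · simp at hlen
          · simpa only [List.nil_append, List.cons_append, colL] using hc2
      · simp only [List.nil_append, List.cons_append, colL, col4]
        rw [out b₁ a₁ a₁' (h₁ _ (by simp)) e1 e1']
        exact colB2 hn hd1 hd2 hd1' hd2' (big b₁ a₁' (h₁ _ (by simp)) e1') hc1
      · simp only [List.nil_append, List.cons_append, colL, col4]
        rw [out b₂ a₁ a₁' (h₁ _ (by simp)) e1 e1']
        exact colA3 hn hd1 hd1' (big b₂ a₁' (h₁ _ (by simp)) e1') (tri_P hn hd2 hd2' hc1)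
      · simp only [List.nil_append, List.cons_append, colL, col4]
        rw [out b₃ a₁ a₁' (h₁ _ (by simp)) e1 e1']
      · simp only [List.nil_append, List.cons_append, colL, col4]

end congr

theorem sort_union {A B : Finset ℕ} (h : ∀ a ∈ A, ∀ b ∈ B, a < b) :
    (A ∪ B).sort = A.sort ++ B.sort := by
  have h1 : (A.sort ++ B.sort).toFinset = A ∪ B := by
    rw [List.toFinset_append, sort_toFinset, sort_toFinset]
  have h2 : (A.sort ++ B.sort).Nodup := by
    rw [List.nodup_append]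
    refine ⟨sort_nodup _ _, sort_nodup _ _, ?_⟩
    intro a ha b hb
    exact (h a ((mem_sort _).1 ha) b ((mem_sort _).1 hb)).ne
  rw [← h1]
  apply (List.toFinset_sort _ h2).2
  rw [List.pairwise_append]
  exact ⟨pairwise_sort _ _, pairwise_sort _ _, fun a ha b hb =>
    (h a ((mem_sort _).1 ha) b ((mem_sort _).1 hb)).le⟩

theorem cls_le {n t h k : ℕ} (hn : 2 ≤ n) (ht : t < n ^ h) (l : List ℕ)
    (hl : ∀ a ∈ l, a / 2 ^ t = k) : (cls n t l).1.2.1 ≤ h ∧ (cls n t l).1.2.2 ≤ h := by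
  rcases l with _ | ⟨a₁, _ | ⟨a₂, _ | ⟨a₃, l⟩⟩⟩
  · simp [cls]
  · simp [cls]
  · have := U_in (hl a₁ (by simp)) (hl a₂ (by simp))
    simp only [cls]
    exact ⟨Nat.zero_le _, U_le_of_lt hn (by omega) ht⟩
  · have h1 := U_in (hl a₁ (by simp)) (hl a₂ (by simp))
    have h2 := U_in (hl a₂ (by simp)) (hl a₃ (by simp))
    simp only [cls, tri]
    split_ifs
    · exact ⟨U_le_of_lt hn (by omega) (by omega), U_le_of_lt hn (by omega) ht⟩
    · exact ⟨U_le_of_lt hn (by omega) (by omega), U_le_of_lt hn (by omega) ht⟩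

theorem uclasses_col {n h r t : ℕ} (k : ℕ) (hn : 2 ≤ n) (ht : t < n ^ h) (W : Finset ℕ) :
    UClasses r (col n) (4 * (h + 1) ^ 2) W (Ico (k * 2 ^ t) ((k + 1) * 2 ^ t)) := by
  have hcard : Fintype.card ((Bool × Fin (h + 1) × Fin (h + 1)) × Bool) = 4 * (h + 1) ^ 2 := by
    simp only [Fintype.card_prod, Fintype.card_bool, Fintype.card_fin]
    ring
  let e := Fintype.equivFinOfCardEq hcard
  let clip : (Bool × ℕ × ℕ) × Bool → (Bool × Fin (h + 1) × Fin (h + 1)) × Bool := fun p =>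
    ((p.1.1, ⟨min p.1.2.1 h, by omega⟩, ⟨min p.1.2.2 h, by omega⟩), p.2)
  refine ⟨fun A => e (clip (cls n t A.sort)), ?_⟩
  intro A A' hA hA' hcardA hAA B _ hB _
  have hclip := e.injective hAA
  have hmem : ∀ C : Finset ℕ, C ⊆ Ico (k * 2 ^ t) ((k + 1) * 2 ^ t) →
      ∀ a ∈ C.sort, a / 2 ^ t = k := by
    intro C hC a ha
    have := mem_Ico.1 (hC ((mem_sort _).1 ha))
    have h2 : 0 < 2 ^ t := by positivity
    apply Nat.div_eq_of_lt_le
    · exact this.1
    · exact this.2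
  have hle := cls_le hn ht _ (hmem A hA)
  have hle' := cls_le hn ht _ (hmem A' hA')
  have hcls : cls n t A.sort = cls n t A'.sort := by
    simp only [clip, Prod.mk.injEq, Fin.mk.injEq, min_eq_left hle.1, min_eq_left hle.2,
      min_eq_left hle'.1, min_eq_left hle'.2] at hclip
    obtain ⟨⟨h1, h2, h3⟩, h4⟩ := hclip
    exact Prod.ext (Prod.ext h1 (Prod.ext h2 h3)) h4
  -- decompose `B`
  set B₁ := B.filter (· < k * 2 ^ t) with hB₁
  set B₃ := B.filter ((k + 1) * 2 ^ t ≤ ·) with hB₃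
  have hBout : ∀ b ∈ B, b < k * 2 ^ t ∨ (k + 1) * 2 ^ t ≤ b := by
    intro b hb
    by_contra hcon
    push Not at hcon
    exact Finset.disjoint_left.1 hB hb (mem_Ico.2 hcon)
  have hdiv : ∀ b : ℕ, b < k * 2 ^ t ∨ (k + 1) * 2 ^ t ≤ b → b / 2 ^ t ≠ k := by
    intro b hb he
    have h2 : 0 < 2 ^ t := by positivity
    rcases hb with hb | hb
    · have := (Nat.div_lt_iff_lt_mul h2).2 hb
      omega
    · have := (Nat.le_div_iff_mul_le h2).2 hb
      omega
  have hsort : ∀ C : Finset ℕ, C ⊆ Ico (k * 2 ^ t) ((k + 1) * 2 ^ t) →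
      (C ∪ B).sort = B₁.sort ++ (C.sort ++ B₃.sort) := by
    intro C hC
    have e1 : C ∪ B = B₁ ∪ (C ∪ B₃) := by
      ext x
      simp only [mem_union, hB₁, hB₃, mem_filter]
      constructor
      · rintro (hx | hx)
        · exact Or.inr (Or.inl hx)
        · rcases hBout x hx with h' | h'
          · exact Or.inl ⟨hx, h'⟩
          · exact Or.inr (Or.inr ⟨hx, h'⟩)
      · rintro (hx | hx | hx)
        · exact Or.inr hx.1
        · exact Or.inl hx
        · exact Or.inr hx.1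
    rw [e1, sort_union, sort_union]
    · intro a ha b hb
      have := (mem_Ico.1 (hC ha)).2
      have := (mem_filter.1 hb).2
      omega
    · intro a ha b hb
      have h1 := (mem_filter.1 ha).2
      rcases mem_union.1 hb with hb | hb
      · have := (mem_Ico.1 (hC hb)).1
        omega
      · have h3 := (mem_filter.1 hb).2
        have : k * 2 ^ t ≤ (k + 1) * 2 ^ t := Nat.mul_le_mul_right _ (by omega)
        omega
  unfold col
  rw [hsort A hA, hsort A' hA']
  refine colL_congr (t := t) (k := k) hn _ _ _ _ ?_ (hmem A hA) (hmem A' hA') ?_ ?_ hcls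
  · rw [length_sort, length_sort, hcardA]
  · intro b hb
    exact hdiv b (Or.inl (mem_filter.1 ((mem_sort _).1 hb)).2)
  · intro b hb
    exact hdiv b (Or.inr (mem_filter.1 ((mem_sort _).1 hb)).2)

/-- The complete binary tree of height `t`, with the leaves `k * 2 ^ t, …, (k + 1) * 2 ^ t - 1`. -/
def tr : ℕ → ℕ → VTree ℕ
  | 0, k => .leaf k
  | t + 1, k => .node (tr t (2 * k)) (tr t (2 * k + 1))

theorem leaves_tr : ∀ t k : ℕ, (tr t k).leaves = Ico (k * 2 ^ t) ((k + 1) * 2 ^ t)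
  | 0, k => by
      simp only [tr, VTree.leaves, pow_zero, mul_one]
      ext x; simp only [mem_singleton, mem_Ico]; omega
  | t + 1, k => by
      simp only [tr, VTree.leaves, leaves_tr t]
      have e1 : 2 * k * 2 ^ t = k * 2 ^ (t + 1) := by rw [pow_succ]; ring
      have e2 : (2 * k + 1 + 1) * 2 ^ t = (k + 1) * 2 ^ (t + 1) := by rw [pow_succ]; ring
      rw [e1, e2]
      apply Ico_union_Ico_eq_Ico
      · rw [← e1]; exact Nat.mul_le_mul_right _ (by omega)
      · rw [← e2]; exact Nat.mul_le_mul_right _ (by omega)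

theorem proper_tr : ∀ t k : ℕ, (tr t k).Proper
  | 0, _ => trivial
  | t + 1, k => by
      refine ⟨?_, proper_tr t _, proper_tr t _⟩
      rw [leaves_tr, leaves_tr]
      exact Ico_disjoint_Ico_consecutive _ _ _

theorem every_tr (P : Finset ℕ → Prop) : ∀ t k : ℕ,
    (∀ t' k', t' ≤ t → P (Ico (k' * 2 ^ t') ((k' + 1) * 2 ^ t'))) → (tr t k).Every P
  | 0, k, h => by
      have := h 0 k le_rfl
      rw [← leaves_tr] at this
      exact this
  | t + 1, k, h => by
      refine ⟨?_, every_tr P t _ fun t' k' ht' => h t' k' (by omega),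
        every_tr P t _ fun t' k' ht' => h t' k' (by omega)⟩
      have := h (t + 1) k le_rfl
      rw [← leaves_tr] at this
      exact this

end Pool.Agent.H801.CW
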