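import Mathlib

/-!
Homogeneous sets of positions in products of self-maps of a finite set.
-/

namespace Pool.Agent.H801.CW

open Finset

variable {S : Type} [Fintype S] [DecidableEq S]

/-- `D i j` is a product of self-maps of `S` strictly between the positions `i < j`. -/
def Sys (D : ℕ → ℕ → S → S) (M : ℕ → S → S) (F : ℕ) : Prop :=
  ∀ i j k, i < j → j < k → k < F → D i k = D j k ∘ M j ∘ D i j

/-- The size of the image. -/
def rk (f : S → S) : ℕ := (univ.image f).card

theorem image_comp_subset (f g : S → S) : univ.image (f ∘ g) ⊆ univ.image f := by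
  intro x hx
  obtain ⟨y, _, rfl⟩ := Finset.mem_image.1 hx
  exact Finset.mem_image.2 ⟨g y, mem_univ _, rfl⟩

theorem rk_comp_left (f g : S → S) : rk (f ∘ g) ≤ rk f := card_le_card (image_comp_subset f g)

theorem rk_comp_right (f g : S → S) : rk (f ∘ g) ≤ rk g := by
  unfold rk
  rw [← Finset.image_image]
  exact card_image_le

theorem rk_pos [Nonempty S] (f : S → S) : 0 < rk f :=
  card_pos.2 (univ_nonempty.image f)

theorem rk_le (f : S → S) : rk f ≤ Fintype.card S := by
  unfold rk
  exact card_le_univ _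

theorem Sys.mono {D : ℕ → ℕ → S → S} {M : ℕ → S → S} {F : ℕ} (h : Sys D M F) {i i' j j' : ℕ}
    (hi : i' ≤ i) (hij : i < j) (hj : j ≤ j') (hF : j' < F) : rk (D i' j') ≤ rk (D i j) := by
  have h1 : rk (D i' j) ≤ rk (D i j) := by
    rcases hi.lt_or_eq with h' | h'
    · rw [h i' i j h' hij (by omega)]
      exact rk_comp_left _ _
    · rw [h']
  have h2 : rk (D i' j') ≤ rk (D i' j) := by
    rcases hj.lt_or_eq with h' | h'
    · rw [h i' j j' (by omega) h' hF, ← Function.comp_assoc]
      exact rk_comp_right _ _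
    · rw [h']
  exact h2.trans h1

omit [Fintype S] [DecidableEq S] in
theorem Sys.reindex {D : ℕ → ℕ → S → S} {M : ℕ → S → S} {F F' : ℕ} (h : Sys D M F) (p : ℕ → ℕ)
    (hp : StrictMono p) (hF : ∀ i < F', p i < F) :
    Sys (fun i j => D (p i) (p j)) (fun i => M (p i)) F' :=
  fun _ j k hij hjk hk => h _ (p j) _ (hp hij) (hp hjk) (hF k hk)

/-- All products between different positions of `I` agree. -/
def Homog (D : ℕ → ℕ → S → S) (I : Finset ℕ) : Prop :=
  ∀ i ∈ I, ∀ j ∈ I, ∀ i' ∈ I, ∀ j' ∈ I, i < j → i' < j' → D i j = D i' j'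

/-- The number of colours in the pigeonhole argument. -/
def nc (S : Type) [Fintype S] [DecidableEq S] : ℕ :=
  Fintype.card ((S → S) × (S → S) × Finset S)

theorem group_lemma (n ρ : ℕ) (D : ℕ → ℕ → S → S) (M : ℕ → S → S) (G : ℕ)
    (hG : nc S * n + 1 ≤ G) (h : Sys D M (G + 1))
    (hr : ∀ i j, i < j → j ≤ G → rk (D i j) = ρ) :
    ∃ I ⊆ range (G + 1), I.card = n ∧ Homog D I := by
  classical
  let χ : ℕ → (S → S) × (S → S) × Finset S := fun i => (D i G, M i, univ.image (D 0 i))
  have hne : (univ : Finset ((S → S) × (S → S) × Finset S)).Nonempty :=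
    ⟨(id, id, ∅), mem_univ _⟩
  have hc : (univ : Finset ((S → S) × (S → S) × Finset S)).card * n ≤ (Ico 1 G).card := by
    rw [Nat.card_Ico, card_univ]
    unfold nc at hG
    omega
  obtain ⟨y, _, hy⟩ := exists_le_card_fiber_of_mul_le_card_of_maps_to
    (s := Ico 1 G) (t := univ) (f := χ) (fun _ _ => mem_univ _) hne hc
  obtain ⟨I, hI, hIn⟩ := exists_subset_card_eq hy
  refine ⟨I, ?_, hIn, ?_⟩
  · intro i hi
    have := mem_filter.1 (hI hi)
    have := mem_Ico.1 this.1
    exact mem_range.2 (by omega)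
  have hI1 : ∀ i ∈ I, 0 < i ∧ i < G := by
    intro i hi
    have := mem_Ico.1 (mem_filter.1 (hI hi)).1
    omega
  have hI2 : ∀ i ∈ I, D i G = y.1 ∧ M i = y.2.1 ∧ univ.image (D 0 i) = y.2.2 := by
    intro i hi
    have := (mem_filter.1 (hI hi)).2
    rw [← this]
    exact ⟨rfl, rfl, rfl⟩
  -- facts for a pair
  have pair : ∀ i ∈ I, ∀ j ∈ I, i < j → univ.image (D i j) = y.2.2 ∧
      y.1 = y.1 ∘ y.2.1 ∘ D i j := by
    intro i hi j hj hij
    constructor
    · rw [← (hI2 j hj).2.2]
      symm
      apply Finset.eq_of_subset_of_card_le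
      · rw [h 0 i j (hI1 i hi).1 hij (by have := (hI1 j hj).2; omega)]
        exact image_comp_subset _ _
      · have e1 := hr i j hij (hI1 j hj).2.le
        have e2 := hr 0 j (hI1 j hj).1 (hI1 j hj).2.le
        unfold rk at e1 e2
        rw [e1, e2]
    · have := h i j G hij (hI1 j hj).2 (Nat.lt_succ_self G)
      rw [(hI2 i hi).1, (hI2 j hj).1, (hI2 j hj).2.1] at this
      exact this
  intro i hi j hj i' hi' j' hj' hij hij'
  obtain ⟨e1, e2⟩ := pair i hi j hj hij
  obtain ⟨e3, e4⟩ := pair i' hi' j' hj' hij'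
  -- `y.1 ∘ y.2.1` is injective on the common image
  have hinj : Set.InjOn (y.1 ∘ y.2.1) (y.2.2 : Set S) := by
    apply Finset.injOn_of_card_image_eq
    have e5 : y.2.2.image (y.1 ∘ y.2.1) = univ.image y.1 := by
      conv_rhs => rw [e2]
      rw [← e1, Finset.image_image]
      rfl
    rw [e5, ← e1]
    have e6 := hr i j hij (hI1 j hj).2.le
    have e7 := hr i G (hI1 i hi).2 le_rfl
    rw [(hI2 i hi).1] at e7
    unfold rk at e6 e7
    rw [e6, e7]
  funext x
  apply hinj
  · rw [← e1]; exact mem_coe.2 (mem_image_of_mem _ (mem_univ x))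
  · rw [← e3]; exact mem_coe.2 (mem_image_of_mem _ (mem_univ x))
  · have a1 := congrFun e2 x
    have a2 := congrFun e4 x
    simp only [Function.comp_apply] at a1 a2 ⊢
    rw [← a1, ← a2]

/-- The number of positions that suffices if all products have rank at most `ρ`. -/
def need (S : Type) [Fintype S] [DecidableEq S] (n : ℕ) : ℕ → ℕ
  | 0 => 2
  | ρ + 1 => (nc S * n + 2) * need S n ρ

theorem need_eq (n ρ : ℕ) : need S n ρ = 2 * (nc S * n + 2) ^ ρ := by
  induction ρ with
  | zero => rfl
  | succ ρ ih => rw [need, ih, pow_succ]; ring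

theorem need_pos (n ρ : ℕ) : 0 < need S n ρ := by
  rw [need_eq]; positivity

theorem homog_exists [Nonempty S] (n : ℕ) : ∀ (ρ : ℕ) (D : ℕ → ℕ → S → S) (M : ℕ → S → S),
    Sys D M (need S n ρ) → (∀ i j, i < j → j < need S n ρ → rk (D i j) ≤ ρ) →
    ∃ I ⊆ range (need S n ρ), I.card = n ∧ Homog D I := by
  classical
  intro ρ
  induction ρ with
  | zero =>
    intro D M _ hr
    have := hr 0 1 (by omega) (by simp [need])
    have := rk_pos (D 0 1)
    omega
  | succ ρ ih =>
    intro D M h hr
    set G := nc S * n + 1 with hG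
    have hneed : need S n (ρ + 1) = (G + 1) * need S n ρ := by rw [need]
    by_cases hA : ∃ b < need S n ρ, ∀ i j, i < j → j ≤ G →
        rk (D (b * (G + 1) + i) (b * (G + 1) + j)) = ρ + 1
    · obtain ⟨b, hb, hbr⟩ := hA
      have hlt : ∀ i < G + 1, b * (G + 1) + i < need S n (ρ + 1) := by
        intro i hi
        rw [hneed]
        calc b * (G + 1) + i < b * (G + 1) + (G + 1) := by omega
          _ = (b + 1) * (G + 1) := by ring
          _ ≤ need S n ρ * (G + 1) := Nat.mul_le_mul_right _ hb
          _ = (G + 1) * need S n ρ := by ring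
      have hs : StrictMono fun i => b * (G + 1) + i := fun i j hij => by
        simp only; omega
      obtain ⟨I, hI, hIn, hIh⟩ := group_lemma n (ρ + 1) _ _ G le_rfl (h.reindex _ hs hlt) hbr
      refine ⟨I.image fun i => b * (G + 1) + i, ?_, ?_, ?_⟩
      · intro x hx
        obtain ⟨i, hi, rfl⟩ := mem_image.1 hx
        exact mem_range.2 (hlt i (mem_range.1 (hI hi)))
      · rw [card_image_of_injective _ hs.injective, hIn]
      · intro i hi j hj i' hi' j' hj' hij hij'
        obtain ⟨i, h1, rfl⟩ := mem_image.1 hi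
        obtain ⟨j, h2, rfl⟩ := mem_image.1 hj
        obtain ⟨i', h3, rfl⟩ := mem_image.1 hi'
        obtain ⟨j', h4, rfl⟩ := mem_image.1 hj'
        exact hIh i h1 j h2 i' h3 j' h4 (by omega) (by omega)
    · push Not at hA
      have hs : StrictMono fun b => b * (G + 1) := fun b b' hb => by
        simp only
        exact Nat.mul_lt_mul_of_pos_right hb (by omega)
      have hlt : ∀ b < need S n ρ, b * (G + 1) < need S n (ρ + 1) := by
        intro b hb
        rw [hneed, mul_comm]
        exact Nat.mul_lt_mul_of_pos_left hb (by omega)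
      obtain ⟨I, hI, hIn, hIh⟩ := ih (fun b b' => D (b * (G + 1)) (b' * (G + 1)))
        (fun b => M (b * (G + 1))) (h.reindex _ hs hlt) (by
          intro b b' hb hb'
          obtain ⟨i, j, hij, hj, hne⟩ := hA b (by omega)
          have hle : (b + 1) * (G + 1) ≤ b' * (G + 1) := Nat.mul_le_mul_right _ hb
          have hb'lt := hlt b' hb'
          have e : (b + 1) * (G + 1) = b * (G + 1) + (G + 1) := by ring
          have h1 := hr (b * (G + 1) + i) (b * (G + 1) + j) (by omega) (by omega)
          have h2 : rk (D (b * (G + 1)) (b' * (G + 1))) ≤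
              rk (D (b * (G + 1) + i) (b * (G + 1) + j)) :=
            h.mono (by omega) (by omega) (by omega) hb'lt
          omega)
      refine ⟨I.image fun b => b * (G + 1), ?_, ?_, ?_⟩
      · intro x hx
        obtain ⟨i, hi, rfl⟩ := mem_image.1 hx
        exact mem_range.2 (hlt i (mem_range.1 (hI hi)))
      · rw [card_image_of_injective _ hs.injective, hIn]
      · intro i hi j hj i' hi' j' hj' hij hij'
        obtain ⟨i, h1, rfl⟩ := mem_image.1 hi
        obtain ⟨j, h2, rfl⟩ := mem_image.1 hj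
        obtain ⟨i', h3, rfl⟩ := mem_image.1 hi'
        obtain ⟨j', h4, rfl⟩ := mem_image.1 hj'
        exact hIh i h1 j h2 i' h3 j' h4 (hs.lt_iff_lt.1 hij) (hs.lt_iff_lt.1 hij')

end Pool.Agent.H801.CW
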