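import Pool.Agent.H801.CW.Basic
import Pool.Agent.H801.CW.Ramsey

/-!
Colourings of bounded width have large sets on which the colour of a subset depends only on its size.
-/

namespace Pool.Agent.H801.CW

open Finset

section
variable {S : Type} (M M' : ℕ → S → S) (s₀ : S)

/-- The product of the unmarked letters from position `i` up to position `j - 1`. -/
def comp (i : ℕ) : ℕ → S → S
  | 0 => id
  | j + 1 => if i ≤ j then M j ∘ comp i j else id

theorem comp_self (i : ℕ) : comp M i i = id := by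
  cases i with
  | zero => rfl
  | succ i => simp [comp]

theorem comp_succ {i j : ℕ} (h : i ≤ j) : comp M i (j + 1) = M j ∘ comp M i j := by
  simp [comp, h]

theorem comp_trans {i j k : ℕ} (hij : i ≤ j) (hjk : j ≤ k) :
    comp M i k = comp M j k ∘ comp M i j := by
  induction k, hjk using Nat.le_induction with
  | base => rw [comp_self]; rfl
  | succ k hk ih =>
    rw [comp_succ M (hij.trans hk), comp_succ M hk, ih]
    rfl

theorem run_unmarked (A : Finset ℕ) {j k : ℕ} (hjk : j ≤ k) (hA : ∀ i, j ≤ i → i < k → i ∉ A) :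
    run M M' s₀ A k = comp M j k (run M M' s₀ A j) := by
  induction k, hjk using Nat.le_induction with
  | base => rw [comp_self]; rfl
  | succ k hk ih =>
    rw [comp_succ M hk, run, if_neg (hA k hk (Nat.lt_succ_self k)),
      ih fun i h1 h2 => hA i h1 (by omega)]
    rfl

end

/-- Homogeneity in the word model. -/
theorem word_homog {S κ : Type} [Fintype S] [DecidableEq S] [Nonempty S]
    (M M' : ℕ → S → S) (s₀ : S) (Φ : S → κ) (n m : ℕ)
    (hm : need S (Fintype.card ((S → S) × S × (S → S)) * n) (Fintype.card S) ≤ m) :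
    ∃ I ⊆ range m, I.card = n ∧ ∀ A A' : Finset ℕ, A ⊆ I → A' ⊆ I → A.card = A'.card →
      Φ (run M M' s₀ A m) = Φ (run M M' s₀ A' m) := by
  classical
  set N₁ := Fintype.card ((S → S) × S × (S → S)) * n with hN₁
  let D : ℕ → ℕ → S → S := fun i j => comp M (i + 1) j
  have hsys : Sys D M (need S N₁ (Fintype.card S)) := by
    intro i j k hij hjk _
    simp only [D]
    rw [comp_trans M (show i + 1 ≤ j + 1 by omega) (show j + 1 ≤ k by omega),
      comp_succ M (show i + 1 ≤ j by omega)]
  obtain ⟨I₁, hI₁, hI₁n, hI₁h⟩ := homog_exists N₁ (Fintype.card S) D M hsys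
    (fun i j _ _ => rk_le _)
  -- pigeonhole on the marked letter, the state before, and the suffix
  let χ : ℕ → (S → S) × S × (S → S) := fun i => (M' i, run M M' s₀ ∅ i, comp M (i + 1) m)
  have hne : (univ : Finset ((S → S) × S × (S → S))).Nonempty := ⟨(id, s₀, id), mem_univ _⟩
  obtain ⟨y, _, hy⟩ := exists_le_card_fiber_of_mul_le_card_of_maps_to
    (s := I₁) (t := univ) (f := χ) (n := n) (fun _ _ => mem_univ _) hne
    (by rw [card_univ, hI₁n])
  obtain ⟨I, hI, hIn⟩ := exists_subset_card_eq hy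
  have hII : I ⊆ I₁ := fun i hi => (mem_filter.1 (hI hi)).1
  have hIm : I ⊆ range m := fun i hi =>
    mem_range.2 ((mem_range.1 (hI₁ (hII hi))).trans_le hm)
  refine ⟨I, hIm, hIn, ?_⟩
  have hχ : ∀ i ∈ I, M' i = y.1 ∧ run M M' s₀ ∅ i = y.2.1 ∧ comp M (i + 1) m = y.2.2 := by
    intro i hi
    have := (mem_filter.1 (hI hi)).2
    rw [← this]
    exact ⟨rfl, rfl, rfl⟩
  obtain ⟨v, hv⟩ : ∃ v : S → S, ∀ i ∈ I, ∀ j ∈ I, i < j → D i j = v := by
    by_cases h : ∃ i ∈ I, ∃ j ∈ I, i < j
    · obtain ⟨i, hi, j, hj, hij⟩ := h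
      exact ⟨D i j, fun i' hi' j' hj' hij' =>
        hI₁h i' (hII hi') j' (hII hj') i (hII hi) j (hII hj) hij' hij⟩
    · push Not at h
      exact ⟨id, fun i hi j hj hij => absurd hij (by have := h i hi j hj; omega)⟩
  -- the state before a position of `I`
  have key : ∀ A : Finset ℕ, A ⊆ I → ∀ t : ℕ, ∀ j ∈ I, (A.filter (· < j)).card = t →
      run M M' s₀ A j = (v ∘ y.1)^[t] y.2.1 := by
    intro A hA t
    induction t with
    | zero =>
      intro j hj ht
      have h0 : A.filter (· < j) = ∅ := card_eq_zero.1 ht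
      have hno : ∀ i, 0 ≤ i → i < j → i ∉ A := by
        intro i _ hij hiA
        have : i ∈ A.filter (· < j) := mem_filter.2 ⟨hiA, hij⟩
        rw [h0] at this
        exact absurd this (notMem_empty i)
      rw [run_unmarked M M' s₀ A (Nat.zero_le j) hno, ← (hχ j hj).2.1,
        run_unmarked M M' s₀ ∅ (Nat.zero_le j) (fun i _ _ => notMem_empty i)]
      rfl
    | succ t ih =>
      intro j hj ht
      have hne' : (A.filter (· < j)).Nonempty := card_pos.1 (by omega)
      set i := (A.filter (· < j)).max' hne' with hi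
      have himem : i ∈ A.filter (· < j) := max'_mem _ _
      obtain ⟨hiA, hij⟩ := mem_filter.1 himem
      have hmax : ∀ x ∈ A, x < j → x ≤ i := fun x hx hxj =>
        le_max' _ _ (mem_filter.2 ⟨hx, hxj⟩)
      have hcard : (A.filter (· < i)).card = t := by
        have e : A.filter (· < j) = insert i (A.filter (· < i)) := by
          ext x
          simp only [mem_filter, mem_insert]
          constructor
          · rintro ⟨hx, hxj⟩
            rcases (hmax x hx hxj).lt_or_eq with h | h
            · exact Or.inr ⟨hx, h⟩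
            · exact Or.inl h
          · rintro (rfl | ⟨hx, hxi⟩)
            · exact ⟨hiA, hij⟩
            · exact ⟨hx, hxi.trans hij⟩
        rw [e, card_insert_of_notMem (by simp)] at ht
        omega
      have h1 := ih i (hA hiA) hcard
      have hno : ∀ x, i + 1 ≤ x → x < j → x ∉ A := fun x hx hxj hxA => by
        have := hmax x hxA hxj
        omega
      rw [run_unmarked M M' s₀ A (show i + 1 ≤ j by omega) hno, run, if_pos hiA, h1,
        (hχ i (hA hiA)).1]
      have : comp M (i + 1) j = v := hv i (hA hiA) j hj hij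
      rw [this, Function.iterate_succ_apply']
      rfl
  -- the final state
  have fin : ∀ A : Finset ℕ, A ⊆ I → A.Nonempty →
      run M M' s₀ A m = y.2.2 (y.1 ((v ∘ y.1)^[A.card - 1] y.2.1)) := by
    intro A hA hne'
    set i := A.max' hne' with hi
    have hiA : i ∈ A := max'_mem _ _
    have hmax : ∀ x ∈ A, x ≤ i := fun x hx => le_max' _ _ hx
    have hcard : (A.filter (· < i)).card = A.card - 1 := by
      have e : A.filter (· < i) = A.erase i := by
        ext x
        simp only [mem_filter, mem_erase]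
        constructor
        · rintro ⟨hx, hxi⟩
          exact ⟨hxi.ne, hx⟩
        · rintro ⟨hxi, hx⟩
          exact ⟨hx, lt_of_le_of_ne (hmax x hx) hxi⟩
      rw [e, card_erase_of_mem hiA]
    have h1 := key A hA _ i (hA hiA) hcard
    have him : i < m := mem_range.1 (hIm (hA hiA))
    have hno : ∀ x, i + 1 ≤ x → x < m → x ∉ A := fun x hx _ hxA => by
      have := hmax x hxA
      omega
    rw [run_unmarked M M' s₀ A (show i + 1 ≤ m by omega) hno, run, if_pos hiA, h1,
      (hχ i (hA hiA)).1, (hχ i (hA hiA)).2.2]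
  intro A A' hA hA' hcard
  rcases A.eq_empty_or_nonempty with h | h
  · subst h
    have : A' = ∅ := card_eq_zero.1 (by rw [← hcard]; rfl)
    rw [this]
  · have h' : A'.Nonempty := card_pos.1 (by rw [← hcard]; exact card_pos.2 h)
    rw [fin A hA h, fin A' hA' h', hcard]

theorem need_bound (q n : ℕ) (hq : 1 ≤ q) (hn : 1 ≤ n) :
    need (Fin q) (Fintype.card ((Fin q → Fin q) × Fin q × (Fin q → Fin q)) * n)
      (Fintype.card (Fin q)) ≤ ((2 * q) ^ (4 * q + 2) * n) ^ q := by
  rw [need_eq]
  have h1 : Fintype.card ((Fin q → Fin q) × Fin q × (Fin q → Fin q)) = q ^ (2 * q + 1) := by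
    simp only [Fintype.card_prod, Fintype.card_pi, Fintype.card_fin, prod_const, card_univ]
    ring
  have h2 : nc (Fin q) = q ^ (2 * q) * 2 ^ q := by
    unfold nc
    simp only [Fintype.card_prod, Fintype.card_pi, Fintype.card_fin, prod_const, card_univ,
      Fintype.card_finset]
    ring
  rw [h1, h2, Fintype.card_fin]
  have h3 : q ^ (2 * q) * 2 ^ q * (q ^ (2 * q + 1) * n) + 2 ≤ 3 * (q ^ (4 * q + 1) * 2 ^ q * n) := by
    have e : q ^ (2 * q) * 2 ^ q * (q ^ (2 * q + 1) * n) = q ^ (4 * q + 1) * 2 ^ q * n := by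
      have : 4 * q + 1 = 2 * q + (2 * q + 1) := by ring
      rw [this, pow_add]
      ring
    rw [e]
    have : 1 ≤ q ^ (4 * q + 1) * 2 ^ q * n :=
      Nat.mul_pos (Nat.mul_pos (pow_pos (by omega) _) (pow_pos (by omega) _)) (by omega)
    omega
  have h4 : 2 * (3 * (q ^ (4 * q + 1) * 2 ^ q * n)) ≤ (2 * q) ^ (4 * q + 2) * n := by
    rw [mul_pow]
    have e1 : 6 * 2 ^ q ≤ 2 ^ (4 * q + 2) := by
      have : 2 ^ (4 * q + 2) = 2 ^ q * 2 ^ (3 * q + 2) := by rw [← pow_add]; congr 1; ring
      rw [this, mul_comm]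
      apply Nat.mul_le_mul_left
      calc 6 ≤ 2 ^ 5 := by norm_num
        _ ≤ 2 ^ (3 * q + 2) := Nat.pow_le_pow_right (by norm_num) (by omega)
    have e2 : q ^ (4 * q + 1) ≤ q ^ (4 * q + 2) := Nat.pow_le_pow_right hq (by omega)
    calc 2 * (3 * (q ^ (4 * q + 1) * 2 ^ q * n)) = (6 * 2 ^ q) * q ^ (4 * q + 1) * n := by ring
      _ ≤ 2 ^ (4 * q + 2) * q ^ (4 * q + 2) * n :=
        Nat.mul_le_mul_right _ (Nat.mul_le_mul e1 e2)
  calc 2 * (q ^ (2 * q) * 2 ^ q * (q ^ (2 * q + 1) * n) + 2) ^ q
      ≤ 2 ^ q * (3 * (q ^ (4 * q + 1) * 2 ^ q * n)) ^ q := by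
        apply Nat.mul_le_mul
        · calc 2 = 2 ^ 1 := (pow_one 2).symm
            _ ≤ 2 ^ q := Nat.pow_le_pow_right (by norm_num) hq
        · exact Nat.pow_le_pow_left h3 q
    _ = (2 * (3 * (q ^ (4 * q + 1) * 2 ^ q * n))) ^ q := (mul_pow _ _ _).symm
    _ ≤ ((2 * q) ^ (4 * q + 2) * n) ^ q := Nat.pow_le_pow_left h4 q

/-- Colourings of all finite subsets. -/
theorem main {V κ : Type} [DecidableEq V] (q n : ℕ) (T : VTree V) (hT : T.Proper)
    (c : Finset V → κ) (hc : T.Every (Classes c q T.leaves))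
    (hN : 2 ^ ((2 * q) ^ (4 * q + 2) * n) ^ q ≤ T.leaves.card) :
    ∃ H ⊆ T.leaves, H.card = n ∧ ∀ A A' : Finset V, A ⊆ H → A' ⊆ H → A.card = A'.card →
      c A = c A' := by
  classical
  rcases Nat.eq_zero_or_pos n with rfl | hn
  · refine ⟨∅, empty_subset _, rfl, fun A A' hA hA' _ => ?_⟩
    rw [subset_empty.1 hA, subset_empty.1 hA']
  obtain ⟨L, a, hL, hLc, hLa⟩ := T.chain (Classes c q T.leaves) _ hT hc hN
  have hq : 1 ≤ q := by
    obtain ⟨f, _⟩ := hLc 0 (Nat.zero_le _)
    exact Nat.one_le_iff_ne_zero.2 fun h => by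
      subst h
      exact (f ∅).elim0
  have : Nonempty (Fin q) := ⟨⟨0, hq⟩⟩
  set m := ((2 * q) ^ (4 * q + 2) * n) ^ q with hm
  have hmono : ∀ i j, i ≤ j → j ≤ m → L i ⊆ L j := by
    intro i j hij
    induction j, hij using Nat.le_induction with
    | base => intro _; exact Subset.rfl
    | succ j _ ih => intro hj; exact (ih (by omega)).trans (hLa j (by omega)).1
  obtain ⟨M, M', s₀, Φ, hΦ⟩ := word_model c q m T.leaves L a hLc
    (fun i hi => (hmono i m hi le_rfl).trans hL.subset) hLa
  obtain ⟨I, hI, hIn, hIh⟩ := word_homog M M' s₀ Φ n m (need_bound q n hq hn)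
  have hinj : Set.InjOn a (I : Set ℕ) := by
    have hlt : ∀ i ∈ I, ∀ j ∈ I, i < j → a i ≠ a j := by
      intro i hi j hj hij he
      have hjm := mem_range.1 (hI hj)
      have him := mem_range.1 (hI hi)
      apply (hLa j hjm).2.2
      rw [← he]
      exact hmono (i + 1) j hij hjm.le (hLa i him).2.1
    intro i hi j hj he
    rcases lt_trichotomy i j with h | h | h
    · exact absurd he (hlt i hi j hj h)
    · exact h
    · exact absurd he.symm (hlt j hj i hi h)
  refine ⟨I.image a, ?_, ?_, ?_⟩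
  · intro x hx
    obtain ⟨i, hi, rfl⟩ := mem_image.1 hx
    have him := mem_range.1 (hI hi)
    rw [← hL]
    exact hmono (i + 1) m him le_rfl (hLa i him).2.1
  · rw [card_image_of_injOn hinj, hIn]
  · intro A A' hA hA' hcard
    have lift : ∀ B : Finset V, B ⊆ I.image a → ∃ J ⊆ I, J.image a = B ∧ J.card = B.card := by
      intro B hB
      refine ⟨I.filter (fun i => a i ∈ B), filter_subset _ _, ?_, ?_⟩
      · ext x
        simp only [mem_image, mem_filter]
        constructor
        · rintro ⟨i, ⟨_, h⟩, rfl⟩; exact h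
        · intro hx
          obtain ⟨i, hi, rfl⟩ := mem_image.1 (hB hx)
          exact ⟨i, ⟨hi, hx⟩, rfl⟩
      · have e : (I.filter (fun i => a i ∈ B)).image a = B := by
          ext x
          simp only [mem_image, mem_filter]
          constructor
          · rintro ⟨i, ⟨_, h⟩, rfl⟩; exact h
          · intro hx
            obtain ⟨i, hi, rfl⟩ := mem_image.1 (hB hx)
            exact ⟨i, ⟨hi, hx⟩, rfl⟩
        conv_rhs => rw [← e]
        rw [card_image_of_injOn]
        exact hinj.mono (by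
          intro i hi
          exact (mem_filter.1 (mem_coe.1 hi)).1)
    obtain ⟨J, hJ, hJA, hJc⟩ := lift A hA
    obtain ⟨J', hJ', hJA', hJc'⟩ := lift A' hA'
    rw [← hJA, ← hJA', hΦ J (hJ.trans hI), hΦ J' (hJ'.trans hI)]
    exact hIh J J' hJ hJ' (by rw [hJc, hJc', hcard])

/-- From colourings of the `r`-subsets to colourings of all finite subsets. -/
theorem classes_of_uclasses {V κ : Type} [DecidableEq V] {r q : ℕ} {c : Finset V → κ}
    {W X : Finset V} (h : UClasses r c q W X) :
    Classes (fun A : Finset V => if A.card = r then some (c A) else none) ((r + 1) * q + 1) W X := by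
  classical
  obtain ⟨f, hf⟩ := h
  have hcode : Fintype.card (Option (Fin (r + 1) × Fin q)) = (r + 1) * q + 1 := by simp
  let e := Fintype.equivFinOfCardEq hcode
  let g : Finset V → Option (Fin (r + 1) × Fin q) := fun A =>
    if hA : A.card ≤ r then some (⟨A.card, Nat.lt_succ_of_le hA⟩, f A) else none
  refine ⟨fun A => e (g A), ?_⟩
  intro A A' hA hA' hAA B hBW hB
  have hg : g A = g A' := e.injective hAA
  have hdA : Disjoint A B := (hB.mono_right hA).symm
  have hdA' : Disjoint A' B := (hB.mono_right hA').symm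
  simp only [card_union_of_disjoint hdA, card_union_of_disjoint hdA']
  by_cases h1 : A.card ≤ r
  · by_cases h2 : A'.card ≤ r
    · simp only [g, dif_pos h1, dif_pos h2, Option.some.injEq, Prod.mk.injEq, Fin.mk.injEq] at hg
      obtain ⟨hg1, hg2⟩ := hg
      rw [hg1]
      split_ifs with h3
      · rw [hf A A' hA hA' hg1 hg2 B hBW hB (by omega)]
      · rfl
    · simp [g, h1, h2] at hg
  · by_cases h2 : A'.card ≤ r
    · simp [g, h1, h2] at hg
    · rw [if_neg (by omega), if_neg (by omega)]

/-- Colourings of the `r`-subsets. -/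
theorem main_uniform {V κ : Type} [DecidableEq V] (r q n : ℕ) (T : VTree V) (hT : T.Proper)
    (c : Finset V → κ) (hc : T.Every (UClasses r c q T.leaves)) (Q : ℕ)
    (hQ : Q = (r + 1) * q + 1)
    (hN : 2 ^ ((2 * Q) ^ (4 * Q + 2) * n) ^ Q ≤ T.leaves.card) :
    ∃ H ⊆ T.leaves, H.card = n ∧ ∀ A A' : Finset V, A ⊆ H → A' ⊆ H → A.card = r → A'.card = r →
      c A = c A' := by
  subst hQ
  obtain ⟨H, hH, hHn, hh⟩ := main _ n T hT
    (fun A : Finset V => if A.card = r then some (c A) else none)
    (hc.mono fun X => classes_of_uclasses) hN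
  refine ⟨H, hH, hHn, fun A A' hA hA' h1 h2 => ?_⟩
  have := hh A A' hA hA' (by rw [h1, h2])
  simpa [h1, h2] using this

end Pool.Agent.H801.CW
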